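import Pool.Agent.Lib.MP_ec5f85_co.Bin

set_option autoImplicit false

namespace Pool.Agent.Results.MP_ec5f85_co.DisproofAll

open Pool.Agent.Lib.MP_ec5f85_co

theorem result : ∀ k n : ℕ, 2 ≤ k → 3 ≤ n → (k = 2 → 9 ≤ n) → 2 * n ≤ stages k n := by
  intro k n hk hn h
  by_cases c : k = 2
  · subst c
    exact Bin.stages_lower (h rfl)
  · exact (stages_bounds (by omega) hn).1

end Pool.Agent.Results.MP_ec5f85_co.DisproofAll
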