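import Pool.Agent.Lib.MP_ec5f85_co.Far

set_option autoImplicit false

namespace Pool.Agent.Results.MP_ec5f85_co.Unbounded

open Pool.Agent.Lib.MP_ec5f85_co

theorem result : ∀ k n d : ℕ, 2 ≤ k → k ^ ((15 * d + 42) * k ^ (d + 1)) ≤ n →
    2 * n + d + 1 ≤ stages k n := by
  intro k n d hk hn
  exact stages_far hk hn

end Pool.Agent.Results.MP_ec5f85_co.Unbounded
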